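import Pool.Agent.KS6_63.GJ.L.PartTH

/-!
# MP_c377d9_an : part J
-/

open MeasureTheory Filter Set Metric Topology
open scoped ENNReal NNReal InnerProductSpace

namespace R257.BJ

/-- The volume of a slab. -/
lemma slab_le {n : ℕ} (ν : E n) (hν : ‖ν‖ = 1) (x : E n) (r c : ℝ) (hr : 0 < r) :
    volume {y : E n | ‖y - x‖ < r ∧ |⟪ν, y - x⟫_ℝ| ≤ c} ≤
      ENNReal.ofReal (2 * c) * (ENNReal.ofReal (r ^ n) *
        volume (ball (0 : EuclideanSpace ℝ (Fin n)) 1)) := by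
  obtain ⟨P, hP, hmp⟩ := stmT n ν hν
  have h1 : volume {y : E n | ‖y - x‖ < r ∧ |⟪ν, y - x⟫_ℝ| ≤ c} =
      volume {z : E n | ‖z‖ < r ∧ |⟪ν, z⟫_ℝ| ≤ c} := by
    have := measure_preimage_add_right (volume : Measure (E n)) (-x)
      {z : E n | ‖z‖ < r ∧ |⟪ν, z⟫_ℝ| ≤ c}
    rw [← this]
    simp [sub_eq_add_neg]
  rw [h1]
  have h2 : {z : E n | ‖z‖ < r ∧ |⟪ν, z⟫_ℝ| ≤ c} ⊆
      (fun z : E n => (⟪ν, z⟫_ℝ, P z)) ⁻¹' (Icc (-c) c ×ˢ
        ball (0 : EuclideanSpace ℝ (Fin n)) r) := by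
    rintro z ⟨hz1, hz2⟩
    refine ⟨abs_le.1 hz2, ?_⟩
    simp only [mem_ball, dist_zero_right]
    have h3 := hP z
    have h4 : ‖P z‖ ^ 2 < r ^ 2 := by
      have : ‖z‖ ^ 2 < r ^ 2 := by
        exact pow_lt_pow_left₀ hz1 (norm_nonneg _) two_ne_zero
      nlinarith [sq_nonneg ⟪ν, z⟫_ℝ]
    exact lt_of_pow_lt_pow_left₀ 2 hr.le h4
  calc volume {z : E n | ‖z‖ < r ∧ |⟪ν, z⟫_ℝ| ≤ c}
      ≤ volume ((fun z : E n => (⟪ν, z⟫_ℝ, P z)) ⁻¹' (Icc (-c) c ×ˢ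
        ball (0 : EuclideanSpace ℝ (Fin n)) r)) := measure_mono h2
    _ = (volume : Measure ℝ) (Icc (-c) c) *
        volume (ball (0 : EuclideanSpace ℝ (Fin n)) r) := by
        rw [hmp.measure_preimage (measurableSet_Icc.prod measurableSet_ball).nullMeasurableSet,
          Measure.prod_prod]
    _ = _ := by
        rw [Real.volume_Icc, Measure.addHaar_ball_of_pos _ _ hr, finrank_euclideanSpace,
          Fintype.card_fin]
        congr 2
        ring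

lemma plane_null {n : ℕ} (ν : E n) (hν : ‖ν‖ = 1) (x : E n) (r : ℝ) (hr : 0 < r) :
    volume {y : E n | ‖y - x‖ < r ∧ ⟪ν, y - x⟫_ℝ = 0} = 0 := by
  have h1 := slab_le ν hν x r 0 hr
  rw [mul_zero, ENNReal.ofReal_zero, zero_mul] at h1
  refine measure_mono_null ?_ (nonpos_iff_eq_zero.1 h1)
  rintro y ⟨h2, h3⟩
  exact ⟨h2, by rw [h3, abs_zero]⟩

lemma side {n d : ℕ} (u : E n → F d) (x : E n) (a b a' : F d) (ν ν' : E n) (hν : ‖ν‖ = 1)
    {τ r : ℝ} (hτ : 0 < τ) (hr : 0 < r) (ha : ‖a' - a‖ < τ) (hn : ‖ν' - ν‖ < τ) :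
    (∫⁻ y in halfBall x ν' r, ‖u y - a'‖ₑ) ≤
      (∫⁻ y in halfBall x ν r, ‖u y - a‖ₑ) + (∫⁻ y in halfBall x (-ν) r, ‖u y - b‖ₑ) +
      ENNReal.ofReal τ * (ENNReal.ofReal (r ^ (n + 1)) * volume (ball (0 : E n) 1)) +
      ENNReal.ofReal (‖a - b‖ + τ) * (ENNReal.ofReal (2 * (τ * r)) * (ENNReal.ofReal (r ^ n) *
        volume (ball (0 : EuclideanSpace ℝ (Fin n)) 1))) := by
  set Sl : Set (E n) := {y : E n | ‖y - x‖ < r ∧ |⟪ν, y - x⟫_ℝ| ≤ τ * r} with hSl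
  set Pl : Set (E n) := {y : E n | ‖y - x‖ < r ∧ ⟪ν, y - x⟫_ℝ = 0} with hPl
  have hsub : halfBall x ν' r ⊆ halfBall x ν r ∪ ((halfBall x (-ν) r ∩ Sl) ∪ Pl) := by
    rintro y ⟨hy1, hy2⟩
    rcases lt_trichotomy ⟪ν, y - x⟫_ℝ 0 with h | h | h
    · right; left
      refine ⟨⟨hy1, by rw [inner_neg_left]; linarith⟩, hy1, ?_⟩
      have h1 : ⟪ν', y - x⟫_ℝ - ⟪ν, y - x⟫_ℝ ≤ τ * r := by
        rw [← inner_sub_left]
        calc ⟪ν' - ν, y - x⟫_ℝ ≤ ‖ν' - ν‖ * ‖y - x‖ := real_inner_le_norm _ _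
          _ ≤ τ * r := by
            apply mul_le_mul hn.le hy1.le (norm_nonneg _) hτ.le
      rw [abs_of_neg h]
      linarith
    · right; right
      exact ⟨hy1, h⟩
    · left
      exact ⟨hy1, h⟩
  have hball : volume (halfBall x ν r) ≤
      ENNReal.ofReal (r ^ (n + 1)) * volume (ball (0 : E n) 1) := by
    have h1 : halfBall x ν r ⊆ ball x r := by
      rintro y ⟨hy, _⟩
      rw [mem_ball, dist_eq_norm]
      exact hy
    refine (measure_mono h1).trans_eq ?_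
    rw [Measure.addHaar_ball _ _ hr.le, finrank_euclideanSpace, Fintype.card_fin]
  have e1 : ∀ y, ‖u y - a'‖ₑ ≤ ‖u y - a‖ₑ + ENNReal.ofReal τ := by
    intro y
    rw [← ofReal_norm, ← ofReal_norm, ← ENNReal.ofReal_add (norm_nonneg _) hτ.le]
    apply ENNReal.ofReal_le_ofReal
    have : u y - a' = (u y - a) - (a' - a) := by abel
    rw [this]
    exact (norm_sub_le _ _).trans (by linarith)
  have e2 : ∀ y, ‖u y - a'‖ₑ ≤ ‖u y - b‖ₑ + ENNReal.ofReal (‖a - b‖ + τ) := by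
    intro y
    rw [← ofReal_norm, ← ofReal_norm, ← ENNReal.ofReal_add (norm_nonneg _) (by positivity)]
    apply ENNReal.ofReal_le_ofReal
    have : u y - a' = (u y - b) - ((a - b) + (a' - a)) := by abel
    rw [this]
    refine (norm_sub_le _ _).trans ?_
    have := norm_add_le (a - b) (a' - a)
    linarith
  calc (∫⁻ y in halfBall x ν' r, ‖u y - a'‖ₑ)
      ≤ ∫⁻ y in halfBall x ν r ∪ ((halfBall x (-ν) r ∩ Sl) ∪ Pl), ‖u y - a'‖ₑ :=
        lintegral_mono_set hsub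
    _ ≤ (∫⁻ y in halfBall x ν r, ‖u y - a'‖ₑ) +
        ((∫⁻ y in halfBall x (-ν) r ∩ Sl, ‖u y - a'‖ₑ) + ∫⁻ y in Pl, ‖u y - a'‖ₑ) := by
        refine (lintegral_union_le _ _ _).trans ?_
        gcongr
        exact lintegral_union_le _ _ _
    _ = (∫⁻ y in halfBall x ν r, ‖u y - a'‖ₑ) +
        (∫⁻ y in halfBall x (-ν) r ∩ Sl, ‖u y - a'‖ₑ) := by
        rw [setLIntegral_measure_zero _ _ (plane_null ν hν x r hr), add_zero]
    _ ≤ ((∫⁻ y in halfBall x ν r, ‖u y - a‖ₑ) + ENNReal.ofReal τ * volume (halfBall x ν r)) +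
        ((∫⁻ y in halfBall x (-ν) r, ‖u y - b‖ₑ) + ENNReal.ofReal (‖a - b‖ + τ) * volume Sl) := by
        gcongr
        · refine (lintegral_mono e1).trans ?_
          rw [lintegral_add_right _ measurable_const, lintegral_const, Measure.restrict_apply_univ]
        · refine (lintegral_mono e2).trans ?_
          rw [lintegral_add_right _ measurable_const, lintegral_const, Measure.restrict_apply_univ]
          gcongr
          · exact inter_subset_left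
          · exact inter_subset_right
    _ ≤ ((∫⁻ y in halfBall x ν r, ‖u y - a‖ₑ) + ENNReal.ofReal τ *
          (ENNReal.ofReal (r ^ (n + 1)) * volume (ball (0 : E n) 1))) +
        ((∫⁻ y in halfBall x (-ν) r, ‖u y - b‖ₑ) + ENNReal.ofReal (‖a - b‖ + τ) *
          (ENNReal.ofReal (2 * (τ * r)) * (ENNReal.ofReal (r ^ n) *
            volume (ball (0 : EuclideanSpace ℝ (Fin n)) 1)))) := by
        gcongr
        exact slab_le ν hν x r (τ * r) hr
    _ = _ := by ring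

lemma side_real {n d : ℕ} (u : E n → F d) (x : E n) (a b a' b' : F d) (ν ν' : E n) (hν : ‖ν‖ = 1)
    {τ r δ : ℝ} (hτ : 0 < τ) (hr : 0 < r) (ha : ‖a' - a‖ < τ) (hn : ‖ν' - ν‖ < τ)
    (h1 : (∫⁻ y in halfBall x ν r, ‖u y - a‖ₑ) ≤
      ENNReal.ofReal (δ * ‖a - b‖ / 16 * r ^ (n + 1)))
    (h2 : (∫⁻ y in halfBall x (-ν) r, ‖u y - b‖ₑ) ≤
      ENNReal.ofReal (δ * ‖a - b‖ / 16 * r ^ (n + 1)))
    (hδ : 0 < δ) (hτ1 : τ ≤ 1)
    (hτ2 : τ * (volume (ball (0 : E n) 1)).toReal + (‖a - b‖ + 1) * (2 * τ) *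
      (volume (ball (0 : EuclideanSpace ℝ (Fin n)) 1)).toReal ≤ δ * ‖a - b‖ / 4)
    (hab : ‖a - b‖ / 2 ≤ ‖a' - b'‖) :
    (∫⁻ y in halfBall x ν' r, ‖u y - a'‖ₑ) ≤ ENNReal.ofReal (δ * ‖a' - b'‖ * r ^ (n + 1)) := by
  set V := (volume (ball (0 : E n) 1)).toReal with hV
  set V' := (volume (ball (0 : EuclideanSpace ℝ (Fin n)) 1)).toReal with hV'
  have hV1 : volume (ball (0 : E n) 1) = ENNReal.ofReal V :=
    (ENNReal.ofReal_toReal measure_ball_lt_top.ne).symm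
  have hV2 : volume (ball (0 : EuclideanSpace ℝ (Fin n)) 1) = ENNReal.ofReal V' :=
    (ENNReal.ofReal_toReal measure_ball_lt_top.ne).symm
  have hV0 : 0 ≤ V := ENNReal.toReal_nonneg
  have hV'0 : 0 ≤ V' := ENNReal.toReal_nonneg
  refine (side u x a b a' ν ν' hν hτ hr ha hn).trans ?_
  rw [hV1, hV2, ← ENNReal.ofReal_mul (by positivity), ← ENNReal.ofReal_mul (by positivity),
    ← ENNReal.ofReal_mul (by positivity), ← ENNReal.ofReal_mul (by positivity),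
    ← ENNReal.ofReal_mul (by positivity)]
  refine (add_le_add (add_le_add (add_le_add h1 h2) le_rfl) le_rfl).trans ?_
  rw [← ENNReal.ofReal_add (by positivity) (by positivity),
    ← ENNReal.ofReal_add (by positivity) (by positivity),
    ← ENNReal.ofReal_add (by positivity) (by positivity)]
  apply ENNReal.ofReal_le_ofReal
  have hR : 0 < r ^ (n + 1) := by positivity
  have h3 : δ * ‖a - b‖ / 16 + δ * ‖a - b‖ / 16 + τ * V + (‖a - b‖ + τ) * (2 * τ * V') ≤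
      δ * ‖a' - b'‖ := by
    have h4 : (‖a - b‖ + τ) * (2 * τ * V') ≤ (‖a - b‖ + 1) * (2 * τ) * V' := by
      rw [mul_assoc (‖a - b‖ + 1)]
      apply mul_le_mul_of_nonneg_right _ (by positivity)
      linarith
    have h5 : δ * (‖a - b‖ / 2) ≤ δ * ‖a' - b'‖ := by gcongr
    have h6 : 0 ≤ δ * ‖a - b‖ := by positivity
    linarith
  calc _ = (δ * ‖a - b‖ / 16 + δ * ‖a - b‖ / 16 + τ * V + (‖a - b‖ + τ) * (2 * τ * V')) *
        r ^ (n + 1) := by ring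
    _ ≤ _ := by gcongr

theorem stmJ : StmJ := by
  rintro n d u x a b ν ⟨hab, hν, ht1, ht2⟩ δ hδ
  have hs : 0 < ‖a - b‖ := norm_pos_iff.2 (sub_ne_zero.2 hab)
  set V := (volume (ball (0 : E n) 1)).toReal with hV
  set V' := (volume (ball (0 : EuclideanSpace ℝ (Fin n)) 1)).toReal with hV'
  have hV0 : 0 ≤ V := ENNReal.toReal_nonneg
  have hV'0 : 0 ≤ V' := ENNReal.toReal_nonneg
  set D := V + (‖a - b‖ + 1) * 2 * V' + 1 with hD
  have hD0 : 0 < D := by positivity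
  set τ := min (min 1 (‖a - b‖ / 8)) (δ * ‖a - b‖ / 4 / D) with hτ
  have hτ0 : 0 < τ := by
    rw [hτ]
    apply lt_min (lt_min one_pos (by positivity)) (by positivity)
  have hτ1 : τ ≤ 1 := (min_le_left _ _).trans (min_le_left _ _)
  have hτ2 : τ ≤ ‖a - b‖ / 8 := (min_le_left _ _).trans (min_le_right _ _)
  have hτ3 : τ * D ≤ δ * ‖a - b‖ / 4 := by
    rw [← le_div_iff₀ hD0]
    exact min_le_right _ _
  have hτ4 : τ * V + (‖a - b‖ + 1) * (2 * τ) * V' ≤ δ * ‖a - b‖ / 4 := by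
    have : τ * V + (‖a - b‖ + 1) * (2 * τ) * V' = τ * (D - 1) := by rw [hD]; ring
    rw [this]
    nlinarith
  refine ⟨τ, hτ0, ?_⟩
  intro a' b' ν' ha hb hn hν'
  have hab' : ‖a - b‖ / 2 ≤ ‖a' - b'‖ := by
    have h1 : a - b = (a' - b') - (a' - a) + (b' - b) := by abel
    have h2 : ‖a - b‖ ≤ ‖a' - b'‖ + ‖a' - a‖ + ‖b' - b‖ := by
      conv_lhs => rw [h1]
      refine (norm_add_le _ _).trans ?_
      have := norm_sub_le (a' - b') (a' - a)
      linarith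
    linarith
  have key : ∀ (ν₀ : E n) (c : F d),
      Tendsto (fun r : ℝ => (∫⁻ y in halfBall x ν₀ r, ‖u y - c‖ₑ) / ENNReal.ofReal (r ^ (n + 1)))
        (𝓝[>] 0) (𝓝 0) → ∀ᶠ r in 𝓝[>] (0 : ℝ), (∫⁻ y in halfBall x ν₀ r, ‖u y - c‖ₑ) ≤
          ENNReal.ofReal (δ * ‖a - b‖ / 16 * r ^ (n + 1)) := by
    intro ν₀ c h
    have h1 : (0 : ℝ≥0∞) < ENNReal.ofReal (δ * ‖a - b‖ / 16) := by
      rw [ENNReal.ofReal_pos]; positivity
    filter_upwards [h.eventually_le_const h1, self_mem_nhdsWithin] with r hr hr0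
    have hr0' : 0 < r := hr0
    have hp : 0 < r ^ (n + 1) := by positivity
    rw [ENNReal.div_le_iff_le_mul (Or.inl (by
      rw [Ne, ENNReal.ofReal_eq_zero, not_le]; exact hp)) (Or.inl ENNReal.ofReal_ne_top),
      ← ENNReal.ofReal_mul (by positivity)] at hr
    exact hr
  have hev := (key ν a ht1).and (key (-ν) b ht2)
  rw [eventually_nhdsWithin_iff, Metric.eventually_nhds_iff] at hev
  obtain ⟨ρ, hρ, hρ'⟩ := hev
  refine ⟨ρ / 2, by positivity, ?_⟩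
  intro r hr hrρ
  obtain ⟨h1, h2⟩ := hρ' (y := r) (by
    rw [Real.dist_eq, sub_zero, abs_of_pos hr]
    linarith) hr
  constructor
  · exact side_real u x a b a' b' ν ν' hν hτ0 hr ha hn h1 h2 hδ hτ1 hτ4 hab'
  · have e1 : ‖b - a‖ = ‖a - b‖ := norm_sub_rev _ _
    have e2 : ‖b' - a'‖ = ‖a' - b'‖ := norm_sub_rev _ _
    have h3 := side_real u x b a b' a' (-ν) (-ν') (by rw [norm_neg]; exact hν) (τ := τ) (r := r)
      (δ := δ) hτ0 hr hb (by
        rw [neg_sub_neg, norm_sub_rev]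
        exact hn) (by rw [e1]; exact h2) (by rw [e1, neg_neg]; exact h1) hδ hτ1
        (by rw [e1]; exact hτ4) (by rw [e1, e2]; exact hab')
    rw [e2] at h3
    exact h3

end R257.BJ
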