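import Pool.Agent.KS6_63.GJ.L.Defs

open MeasureTheory Filter Set Metric Topology
open scoped ENNReal NNReal InnerProductSpace

namespace R257.BJ

theorem stmM_disj {X ι : Type*} [MeasurableSpace X] (D : ι → Set X) (w : ι → ℝ≥0∞)
    (hD : ∀ i, MeasurableSet (D i)) (s : Finset ι) :
    ∃ G : ι → Set X, (∀ i ∈ s, MeasurableSet (G i)) ∧ (∀ i ∈ s, G i ⊆ D i) ∧
      (∀ i ∈ s, ∀ j ∈ s, i ≠ j → Disjoint (G i) (G j)) ∧
      ∀ x, (⨆ i ∈ s, (D i).indicator (fun _ => w i) x) ≤
        ∑ i ∈ s, (G i).indicator (fun _ => w i) x := by
  classical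
  induction s using Finset.induction_on with
  | empty => exact ⟨D, by simp, by simp, by simp, by simp⟩
  | insert a s ha ih =>
    obtain ⟨G, hm, hsub, hdis, hle⟩ := ih
    set A : Set X := D a ∩ ⋂ j ∈ s, ({x | x ∈ G j → w j < w a}) with hA
    have hAm : MeasurableSet A := by
      refine (hD a).inter (s.measurableSet_biInter fun j hj => ?_)
      by_cases h : w j < w a
      · have : {x | x ∈ G j → w j < w a} = univ := by ext x; simp [h]
        rw [this]; exact MeasurableSet.univ
      · have : {x | x ∈ G j → w j < w a} = (G j)ᶜ := by ext x; simp [h]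
        rw [this]; exact (hm j hj).compl
    have hmemA : ∀ x, x ∈ A ↔ x ∈ D a ∧ ∀ j ∈ s, x ∈ G j → w j < w a := by
      intro x; simp [hA]
    refine ⟨fun i => if i = a then A else G i \ A, ?_, ?_, ?_, ?_⟩
    · intro i hi
      by_cases h : i = a
      · simp only [h, if_true]; exact hAm
      · simp only [h, if_false]
        exact (hm i ((Finset.mem_insert.1 hi).resolve_left h)).diff hAm
    · intro i hi
      by_cases h : i = a
      · simp only [h, if_true]; exact inter_subset_left
      · simp only [h, if_false]
        exact diff_subset.trans (hsub i ((Finset.mem_insert.1 hi).resolve_left h))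
    · intro i hi j hj hij
      by_cases h : i = a
      · have hj' : ¬ j = a := fun h' => hij (h.trans h'.symm)
        simp only [h, hj', if_true, if_false]
        exact disjoint_sdiff_right
      · by_cases h' : j = a
        · simp only [h, h', if_true, if_false]
          exact disjoint_sdiff_left
        · simp only [h, h', if_false]
          exact (hdis i ((Finset.mem_insert.1 hi).resolve_left h) j
            ((Finset.mem_insert.1 hj).resolve_left h') hij).mono diff_subset diff_subset
    · intro x
      have hrest : ∀ i ∈ s, (if i = a then A else G i \ A) = G i \ A := by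
        intro i hi
        rw [if_neg]; rintro rfl; exact ha hi
      rw [Finset.sum_insert ha, Finset.iSup_insert]
      simp only [if_true]
      have e1 : ∑ i ∈ s, (if i = a then A else G i \ A).indicator (fun _ => w i) x =
          ∑ i ∈ s, (G i \ A).indicator (fun _ => w i) x :=
        Finset.sum_congr rfl fun i hi => by rw [hrest i hi]
      rw [e1]
      by_cases hx : x ∈ A
      · have hx' := (hmemA x).1 hx
        rw [indicator_of_mem hx]
        refine le_trans (sup_le ?_ ?_) (le_add_right le_rfl)
        · exact indicator_le_self' (f := fun _ => w a) (by simp) x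
        · refine (hle x).trans ?_
          by_cases hex : ∃ j ∈ s, x ∈ G j
          · obtain ⟨j, hj, hxj⟩ := hex
            rw [Finset.sum_eq_single_of_mem j hj, indicator_of_mem hxj]
            · exact (hx'.2 j hj hxj).le
            · intro k hk hkj
              rw [indicator_of_notMem]
              intro hxk
              exact (Set.disjoint_left.1 (hdis k hk j hj hkj)) hxk hxj
          · push Not at hex
            rw [Finset.sum_eq_zero fun j hj => indicator_of_notMem (hex j hj) _]
            exact zero_le
      · rw [indicator_of_notMem hx, zero_add]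
        have e2 : ∑ i ∈ s, (G i \ A).indicator (fun _ => w i) x =
            ∑ i ∈ s, (G i).indicator (fun _ => w i) x := by
          refine Finset.sum_congr rfl fun i hi => ?_
          by_cases hxi : x ∈ G i
          · rw [indicator_of_mem hxi, indicator_of_mem (show x ∈ G i \ A from ⟨hxi, hx⟩)]
          · rw [indicator_of_notMem hxi, indicator_of_notMem fun h => hxi h.1]
        rw [e2]
        refine sup_le ?_ (hle x)
        by_cases hxD : x ∈ D a
        · rw [indicator_of_mem hxD]
          have : ∃ j ∈ s, x ∈ G j ∧ w a ≤ w j := by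
            by_contra hcon
            push Not at hcon
            exact hx ((hmemA x).2 ⟨hxD, fun j hj hxj => hcon j hj hxj⟩)
          obtain ⟨j, hj, hxj, hwj⟩ := this
          refine le_trans ?_ (Finset.single_le_sum (f := fun i => (G i).indicator (fun _ => w i) x)
            (fun _ _ => zero_le) hj)
          show w a ≤ (G j).indicator (fun _ => w j) x
          rw [indicator_of_mem hxj]; exact hwj
        · rw [indicator_of_notMem hxD]; exact zero_le

theorem stmM : StmM := by
  intro n ι hι D w T μ hc hfin hw h
  have hmeas : ∀ i, MeasurableSet (D i) := fun i => (hc i).isClosed.measurableSet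
  have hfm : ∀ i, Measurable fun x => (D i).indicator (fun _ => w i) x := fun i =>
    measurable_const.indicator (hmeas i)
  have e1 : ∀ x, (⨆ i, (D i).indicator (fun _ => w i) x) =
      ⨆ s : Finset ι, ⨆ i ∈ s, (D i).indicator (fun _ => w i) x := fun x =>
    iSup_eq_iSup_finset _
  simp_rw [e1]
  rw [lintegral_iSup_directed]
  · refine iSup_le fun s => ?_
    obtain ⟨G, hm, hsub, hdis, hle⟩ := stmM_disj D w hmeas s
    refine (lintegral_mono hle).trans ?_
    rw [lintegral_finsetSum' _ fun i hi => ((measurable_const.indicator (hm i hi))).aemeasurable]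
    have e2 : ∀ i ∈ s, ∫⁻ x, (G i).indicator (fun _ => w i) x ∂μ = w i * μ (G i) := by
      intro i hi
      rw [lintegral_indicator (hm i hi), setLIntegral_const]
    rw [Finset.sum_congr rfl e2]
    refine ENNReal.le_of_forall_pos_le_add fun δ hδ _ => ?_
    set W : ℝ≥0∞ := ∑ i ∈ s, w i with hW
    have hWt : W ≠ ⊤ := by
      rw [hW]; exact (ENNReal.sum_lt_top.2 fun i _ => lt_top_iff_ne_top.2 (hw i)).ne
    set ε : ℝ≥0∞ := δ / (W + 1) with hε
    have hε0 : ε ≠ 0 := by
      rw [hε]
      refine ENNReal.div_ne_zero.2 ⟨by exact_mod_cast hδ.ne', ?_⟩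
      exact ENNReal.add_ne_top.2 ⟨hWt, ENNReal.one_ne_top⟩
    have hεW : W * ε ≤ δ := by
      have h1 : W * ε ≤ (W + 1) * ε := mul_le_mul_left (le_add_right le_rfl) _
      refine h1.trans ?_
      rw [hε, ENNReal.mul_div_cancel (by simp) (ENNReal.add_ne_top.2 ⟨hWt, ENNReal.one_ne_top⟩)]
    have hK : ∀ i, ∃ K : Set (E n), i ∈ s → IsCompact K ∧ K ⊆ G i ∧ μ (G i) ≤ μ K + ε := by
      intro i
      by_cases hi : i ∈ s
      · haveI : IsFiniteMeasure (μ.restrict (D i)) :=
          ⟨by rw [Measure.restrict_apply_univ]; exact hfin i⟩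
        obtain ⟨K, hKG, hKc, hlt⟩ := (hm i hi).exists_isCompact_lt_add (μ := μ.restrict (D i))
          (measure_ne_top _ _) hε0
        refine ⟨K, fun _ => ⟨hKc, hKG, ?_⟩⟩
        rw [Measure.restrict_apply (hm i hi), Measure.restrict_apply hKc.isClosed.measurableSet,
          inter_eq_left.2 (hsub i hi), inter_eq_left.2 (hKG.trans (hsub i hi))] at hlt
        exact hlt.le
      · exact ⟨∅, fun h => absurd h hi⟩
    choose K hK using hK
    have h1 := h s K (fun i hi => (hK i hi).1) (fun i hi => (hK i hi).2.1.trans (hsub i hi))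
      (fun i hi j hj hij => (hdis i hi j hj hij).mono (hK i hi).2.1 (hK j hj).2.1)
    calc ∑ i ∈ s, w i * μ (G i) ≤ ∑ i ∈ s, (w i * μ (K i) + w i * ε) := by
          refine Finset.sum_le_sum fun i hi => ?_
          rw [← mul_add]
          exact mul_le_mul_right (hK i hi).2.2 _
      _ = (∑ i ∈ s, w i * μ (K i)) + W * ε := by
          rw [Finset.sum_add_distrib, hW, Finset.sum_mul]
      _ ≤ T + δ := add_le_add h1 hεW
  · intro s
    have : (fun x => ⨆ i ∈ s, (D i).indicator (fun _ => w i) x) =
        fun x => s.sup (fun i => (D i).indicator (fun _ => w i)) x := by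
      funext x
      rw [Finset.sup_eq_iSup]
      simp only [iSup_apply]
    refine (Measurable.iSup fun i => Measurable.iSup fun _ => hfm i).aemeasurable
  · intro s t
    classical
    refine ⟨s ∪ t, fun x => ?_, fun x => ?_⟩
    · exact iSup_mono fun i => iSup_mono' fun hi => ⟨Finset.mem_union_left _ hi, le_rfl⟩
    · exact iSup_mono fun i => iSup_mono' fun hi => ⟨Finset.mem_union_right _ hi, le_rfl⟩

end R257.BJ
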