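import Pool.Agent.KS6_63.GJ.L.PartTH

/-!
# MP_c377d9_an : part S
-/

open MeasureTheory Filter Set Metric Topology
open scoped ENNReal NNReal InnerProductSpace

namespace R257.BJ

lemma polar {n : ℕ} (G : E n → ℝ≥0∞) (hG : Measurable G) :
    ∫⁻ x, G x = ∫⁻ z : sphere (0 : E n) 1, (∫⁻ r in Ioi (0 : ℝ),
      ENNReal.ofReal (r ^ n) * G (r • (z : E n))) ∂(volume : Measure (E n)).toSphere := by
  have hd : Module.finrank ℝ (E n) - 1 = n := by simp
  calc
    ∫⁻ x, G x = ∫⁻ x : ({(0)}ᶜ : Set (E n)), G x.1 ∂((volume : Measure (E n)).comap (↑)) := by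
      rw [lintegral_subtype_comap (measurableSet_singleton _).compl, restrict_compl_singleton]
    _ = ∫⁻ x, G ((x.2 : ℝ) • (x.1 : E n)) ∂(volume : Measure (E n)).toSphere.prod
          (.volumeIoiPow (Module.finrank ℝ (E n) - 1)) := by
      rw [← (volume : Measure (E n)).measurePreserving_homeomorphUnitSphereProd.lintegral_comp_emb
        (Homeomorph.measurableEmbedding _)]
      refine lintegral_congr fun x => ?_
      congr 1
      have h1 := congrArg Subtype.val ((homeomorphUnitSphereProd (E n)).left_inv x)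
      exact h1.symm
    _ = ∫⁻ z : sphere (0 : E n) 1, (∫⁻ r : Ioi (0 : ℝ), G ((r : ℝ) • (z : E n))
          ∂(.volumeIoiPow (Module.finrank ℝ (E n) - 1))) ∂(volume : Measure (E n)).toSphere := by
      rw [lintegral_prod]
      exact (hG.comp (by fun_prop)).aemeasurable
    _ = _ := by
      rw [hd]
      refine lintegral_congr fun z => ?_
      rw [Measure.volumeIoiPow, lintegral_withDensity_eq_lintegral_mul]
      · rw [← lintegral_subtype_comap measurableSet_Ioi
          (fun r : ℝ => ENNReal.ofReal (r ^ n) * G (r • (z : E n)))]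
        rfl
      · fun_prop
      · exact hG.comp (by fun_prop)

lemma lint_inv {A B : ℝ} (hA : 0 < A) (hAB : A ≤ B) :
    ∫⁻ r in Icc A B, ENNReal.ofReal r⁻¹ = ENNReal.ofReal (Real.log (B / A)) := by
  rw [← integral_inv_of_pos hA (hA.trans_le hAB), intervalIntegral.integral_of_le hAB,
    ← integral_Icc_eq_integral_Ioc, ofReal_integral_eq_lintegral_ofReal]
  · apply ContinuousOn.integrableOn_Icc
    intro x hx
    exact (continuousAt_inv₀ (hA.trans_le hx.1).ne').continuousWithinAt
  · filter_upwards [ae_restrict_mem measurableSet_Icc] with y hy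
    exact inv_nonneg.2 (hA.trans_le hy.1).le

lemma meas_ann (n : ℕ) (A B : ℝ) : MeasurableSet (ann n A B) := by
  unfold ann
  apply MeasurableSet.inter
  · exact measurableSet_le measurable_const measurable_norm
  · exact measurableSet_le measurable_norm measurable_const

lemma ann_int {n : ℕ} (g : E n → ℝ≥0∞) (hg : Measurable g)
    (hhom : ∀ (r : ℝ) (z : E n), 0 < r → g (r • z) = ENNReal.ofReal r * g z)
    {A B : ℝ} (hA : 0 < A) (hAB : A ≤ B) :
    ∫⁻ h in ann n A B, g h / ‖h‖ₑ ^ (n + 2) =
      (∫⁻ z : sphere (0 : E n) 1, g z ∂(volume : Measure (E n)).toSphere) *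
        ENNReal.ofReal (Real.log (B / A)) := by
  rw [← lintegral_indicator (meas_ann n A B), polar]
  · have hgs : Measurable fun z : sphere (0 : E n) 1 => g (z : E n) :=
      hg.comp measurable_subtype_coe
    rw [← lintegral_mul_const _ hgs]
    refine lintegral_congr fun z => ?_
    have hz : ‖(z : E n)‖ = 1 := by
      have := z.2
      rw [mem_sphere_iff_norm, sub_zero] at this
      exact this
    rw [← lint_inv hA hAB, ← lintegral_const_mul _ (by fun_prop),
      ← lintegral_indicator measurableSet_Icc, ← lintegral_indicator measurableSet_Ioi]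
    refine lintegral_congr fun r => ?_
    by_cases hr : 0 < r
    · rw [indicator_of_mem (mem_Ioi.2 hr)]
      have hn : ‖r • (z : E n)‖ = r := by
        rw [norm_smul, hz, mul_one, Real.norm_of_nonneg hr.le]
      by_cases hrAB : r ∈ Icc A B
      · rw [indicator_of_mem hrAB, indicator_of_mem (by
          change A ≤ ‖r • (z : E n)‖ ∧ ‖r • (z : E n)‖ ≤ B
          rw [hn]; exact hrAB), hhom r _ hr]
        have hne : ‖r • (z : E n)‖ₑ = ENNReal.ofReal r := by
          rw [← ofReal_norm, hn]
        rw [hne, ENNReal.ofReal_inv_of_pos hr, ENNReal.ofReal_pow hr.le]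
        have h0 : ENNReal.ofReal r ≠ 0 := by
          rw [Ne, ENNReal.ofReal_eq_zero, not_le]; exact hr
        have ht : ENNReal.ofReal r ≠ ⊤ := ENNReal.ofReal_ne_top
        rw [ENNReal.div_eq_inv_mul, pow_add, pow_two]
        set a := ENNReal.ofReal r with ha
        have hp0 : a ^ n ≠ 0 := pow_ne_zero _ h0
        have hpt : a ^ n ≠ ⊤ := ENNReal.pow_ne_top ht
        rw [ENNReal.mul_inv (Or.inl hp0) (Or.inl hpt), ENNReal.mul_inv (Or.inl h0) (Or.inl ht)]
        calc a ^ n * ((a ^ n)⁻¹ * (a⁻¹ * a⁻¹) * (a * g z))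
            = (a ^ n * (a ^ n)⁻¹) * ((a * a⁻¹) * (g z * a⁻¹)) := by ring
          _ = g z * a⁻¹ := by
            rw [ENNReal.mul_inv_cancel hp0 hpt, ENNReal.mul_inv_cancel h0 ht, one_mul, one_mul]
      · rw [indicator_of_notMem hrAB, indicator_of_notMem (by
          intro h
          change A ≤ ‖r • (z : E n)‖ ∧ ‖r • (z : E n)‖ ≤ B at h
          rw [hn] at h
          exact hrAB h), mul_zero]
    · rw [indicator_of_notMem (by simpa using hr), indicator_of_notMem (fun h => hr (hA.trans_le h.1))]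
  · exact (hg.div (by fun_prop)).indicator (meas_ann n A B)

theorem stmS : StmS := by
  intro n A B hA hAB
  have h0 : ∀ (r : ℝ) (z : E n), 0 < r → ‖(r • z) 0‖ₑ = ENNReal.ofReal r * ‖z 0‖ₑ := by
    intro r z hr
    rw [PiLp.smul_apply, enorm_smul, ← ofReal_norm r, Real.norm_of_nonneg hr.le]
  refine ⟨?_, ?_, ?_, ?_⟩
  · intro ν hν
    obtain ⟨b, hb⟩ := exists_basis ν hν
    have h1 := ann_int (n := n) (fun h => ‖h 0‖ₑ) (by fun_prop) h0 hA hAB
    have h2 : ∫⁻ h in ann n A B, ‖⟪ν, h⟫_ℝ‖ₑ / ‖h‖ₑ ^ (n + 2) =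
        ∫⁻ h in ann n A B, ‖h 0‖ₑ / ‖h‖ₑ ^ (n + 2) := by
      have h6 := b.measurePreserving_repr.lintegral_comp_emb
          b.repr.toHomeomorph.measurableEmbedding
          ((ann n A B).indicator fun h : E n => ‖h 0‖ₑ / ‖h‖ₑ ^ (n + 2))
      rw [← lintegral_indicator (meas_ann n A B), ← lintegral_indicator (meas_ann n A B), ← h6]
      refine lintegral_congr fun x => ?_
      have h3 : ‖b.repr x‖ = ‖x‖ := b.repr.norm_map x
      have h4 : ⟪ν, x⟫_ℝ = b.repr x 0 := by rw [b.repr_apply_apply, hb]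
      have h5 : ‖b.repr x‖ₑ = ‖x‖ₑ := by rw [← ofReal_norm, h3, ofReal_norm]
      by_cases hx : x ∈ ann n A B
      · rw [indicator_of_mem hx, indicator_of_mem (by
          change A ≤ ‖b.repr x‖ ∧ ‖b.repr x‖ ≤ B
          rw [h3]; exact hx), h4, h5]
      · rw [indicator_of_notMem hx, indicator_of_notMem (by
          intro h
          change A ≤ ‖b.repr x‖ ∧ ‖b.repr x‖ ≤ B at h
          rw [h3] at h
          exact hx h)]
    rw [h2, h1]
    rfl
  · have h1 := ann_int (n := n) (fun h => ‖h‖ₑ) (by fun_prop) (by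
      intro r z hr
      rw [enorm_smul, ← ofReal_norm r, Real.norm_of_nonneg hr.le]) hA hAB
    rw [h1]
    congr 1
    have h2 : ∀ z : sphere (0 : E n) 1, ‖(z : E n)‖ₑ = 1 := by
      intro z
      have := z.2
      rw [mem_sphere_iff_norm, sub_zero] at this
      rw [← ofReal_norm, this, ENNReal.ofReal_one]
    simp only [h2, lintegral_one]
    rfl
  · exact measure_ne_top _ _
  · unfold kappa
    have h1 : ∫⁻ z : sphere (0 : E n) 1, ‖(z : E n) 0‖ₑ ∂(volume : Measure (E n)).toSphere ≤
        ∫⁻ z : sphere (0 : E n) 1, 1 ∂(volume : Measure (E n)).toSphere := by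
      refine lintegral_mono fun z => ?_
      have := z.2
      rw [mem_sphere_iff_norm, sub_zero] at this
      rw [← ofReal_norm, ENNReal.ofReal_le_one]
      exact (PiLp.norm_apply_le (z : E n) 0).trans this.le
    rw [lintegral_one] at h1
    exact ne_top_of_le_ne_top (measure_ne_top _ _) h1

end R257.BJ
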