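import Pool.Agent.KS6_63.GJ.L.Sum
import Pool.Agent.KS6_63.GJ.L.PartJ
import Pool.Agent.KS6_63.GJ.L.PartM
import Pool.Agent.KS6_63.GJ.L.PartS
import Pool.Agent.KS6_63.GJ.L.PartTH

open MeasureTheory Filter Set Metric Topology TopologicalSpace
open scoped ENNReal NNReal InnerProductSpace

namespace R257.BJ

variable {n d : ℕ}

instance : Nonempty (sphere (0 : E n) 1) :=
  ⟨⟨EuclideanSpace.single 0 1, by simp⟩⟩

/-- index set: dense parameters `(a, b, ν, k, c)` -/
abbrev Idx := ℕ × ℕ × ℕ × ℕ × ℕ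

/-- the piece attached to an index -/
noncomputable def pc (hT : StmT) (n d : ℕ) (i : Idx) : Piece n d where
  a := denseSeq (F d) i.1
  b := denseSeq (F d) i.2.1
  ν := (denseSeq (sphere (0 : E n) 1) i.2.2.1 : E n)
  hν := by simp
  P := (hT n _ (by simp)).choose
  hP1 := (hT n _ (by simp)).choose_spec.1
  hP2 := (hT n _ (by simp)).choose_spec.2

noncomputable def rho (i : Idx) : ℝ := 1 / ((i.2.2.2.1 : ℝ) + 1)

lemma rho_pos (i : Idx) : 0 < rho i := by unfold rho; positivity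

open Classical in
/-- the compact sets -/
noncomputable def DD (hT : StmT) (u : E n → F d) (δ : ℝ) (i : Idx) : Set (E n) :=
  if (pc hT n d i).a = (pc hT n d i).b then ∅ else
    Cset u (pc hT n d i).a (pc hT n d i).b (pc hT n d i).ν (rho i)
      (δ * ‖(pc hT n d i).a - (pc hT n d i).b‖) ∩
    closedBall (denseSeq (E n) i.2.2.2.2) (rho i / 4)

lemma DD_compact (hT : StmT) {u : E n → F d} (hu : AEStronglyMeasurable u volume) (δ : ℝ) (i : Idx) :
    IsCompact (DD hT u δ i) := by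
  unfold DD
  split_ifs
  · exact isCompact_empty
  · exact (isCompact_closedBall _ _).inter_left (Cset_closed hu _ _ _ _ _)

/-- smallness condition linking `δ` and `L` -/
def Small (n : ℕ) (δ L : ℝ) : Prop :=
  ENNReal.ofReal (2 * 4 ^ (n + 1) * δ) < ENNReal.ofReal (L ^ (n + 1)) * VN n

lemma DD_graph (hT : StmT) {u : E n → F d} (hu : AEStronglyMeasurable u volume) {δ L : ℝ}
    (hδ : 0 ≤ δ) (hL : 0 < L) (hL1 : L ≤ 1) (hs : Small n δ L) (i : Idx) :
    ∀ x ∈ DD hT u δ i, ∀ y ∈ DD hT u δ i,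
      |⟪(pc hT n d i).ν, x - y⟫_ℝ| ≤ L * ‖x - y‖ := by
  intro x hx y hy
  unfold DD at hx hy
  split_ifs at hx hy with h
  · exact absurd hx (notMem_empty _)
  · apply graph_prop h (pc hT n d i).hν hL hL1 hδ hu hs hy.1 hx.1
    have h1 := mem_closedBall.mp hx.2
    have h2 := mem_closedBall.mp hy.2
    rw [← dist_eq_norm]
    have h3 := dist_triangle_right x y (denseSeq (E n) i.2.2.2.2)
    linarith

lemma Hn_mono_le (hH : StmH) (hT : StmT) {u : E n → F d} (hu : AEStronglyMeasurable u volume) {δ L : ℝ}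
    (hδ : 0 ≤ δ) (hL : 0 < L) (hL1 : L < 1) (hs : Small n δ L) (i : Idx) {K : Set (E n)}
    (hK : K ⊆ DD hT u δ i) :
    Hn n K ≤ ENNReal.ofReal (1 / Real.sqrt (1 - L ^ 2)) ^ n * volume ((pc hT n d i).P '' K) :=
  hH n _ _ (pc hT n d i).hP1 L hL.le hL1 K fun x hx y hy =>
    DD_graph hT hu hδ hL hL1.le hs i x (hK hx) y (hK hy)

lemma DD_finite (hH : StmH) (hT : StmT) {u : E n → F d} (hu : AEStronglyMeasurable u volume) {δ L : ℝ}
    (hδ : 0 ≤ δ) (hL : 0 < L) (hL1 : L < 1) (hs : Small n δ L) (i : Idx) :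
    Hn n (DD hT u δ i) < ⊤ := by
  refine (Hn_mono_le hH hT hu hδ hL hL1 hs i subset_rfl).trans_lt ?_
  apply ENNReal.mul_lt_top (ENNReal.pow_lt_top ENNReal.ofReal_lt_top)
  exact ((DD_compact hT hu δ i).image (pc hT n d i).P.continuous_of_finiteDimensional).measure_lt_top

/-- the jump size is below the supremum of the weights -/
lemma jump_le_sup (hJ : StmJ) (hT : StmT) {u : E n → F d} {q : ℝ} (hq : 1 ≤ q) {δ : ℝ} (hδ : 0 < δ)
    {κ : ℝ≥0∞} (hκ : κ ≠ ⊤) (x : E n) :
    κ * jumpSize u x ^ q ≤ ⨆ i, (DD hT u δ i).indicator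
      (fun _ => κ * ‖(pc hT n d i).a - (pc hT n d i).b‖ₑ ^ q) x := by
  set M := ⨆ i, (DD hT u δ i).indicator
      (fun _ => κ * ‖(pc hT n d i).a - (pc hT n d i).b‖ₑ ^ q) x with hM
  have hq0 : 0 ≤ q := by linarith
  have hq0' : 0 < q := by linarith
  -- main claim
  have main : ∀ (a b : F d) (ν : E n), IsJump u x a b ν → κ * ‖a - b‖ₑ ^ q ≤ M := by
    intro a b ν hj
    obtain ⟨τ, hτ, hτ2⟩ := hJ n d u x a b ν hj δ hδ
    have hab : 0 < ‖a - b‖ := norm_pos_iff.mpr (sub_ne_zero.mpr hj.1)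
    -- for all η > 0
    have step : ∀ η : ℝ, 0 < η → κ * ENNReal.ofReal (‖a - b‖ - η) ^ q ≤ M := by
      intro η hη
      set τ' := min τ (min (η / 2) (‖a - b‖ / 4)) with hτ'
      have hτ'pos : 0 < τ' := by positivity
      have hτ1 : τ' ≤ τ := min_le_left _ _
      have hτ2' : τ' ≤ η / 2 := (min_le_right _ _).trans (min_le_left _ _)
      have hτ3 : τ' ≤ ‖a - b‖ / 4 := (min_le_right _ _).trans (min_le_right _ _)
      have hνs : ν ∈ sphere (0 : E n) 1 := by simpa using hj.2.1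
      obtain ⟨i1, h1⟩ := (denseRange_denseSeq (F d)).exists_dist_lt a hτ'pos
      obtain ⟨i2, h2⟩ := (denseRange_denseSeq (F d)).exists_dist_lt b hτ'pos
      obtain ⟨i3, h3⟩ := (denseRange_denseSeq (sphere (0 : E n) 1)).exists_dist_lt ⟨ν, hνs⟩ hτ'pos
      rw [dist_comm, dist_eq_norm] at h1 h2
      rw [dist_comm, Subtype.dist_eq, dist_eq_norm] at h3
      have hν3 : ‖(denseSeq (sphere (0 : E n) 1) i3 : E n)‖ = 1 := by simp
      obtain ⟨ρ, hρ, hx⟩ := hτ2 _ _ _ (h1.trans_le hτ1) (h2.trans_le hτ1) (h3.trans_le hτ1) hν3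
      obtain ⟨k, hk⟩ := exists_nat_one_div_lt hρ
      have hrk : (0 : ℝ) < 1 / ((k : ℝ) + 1) / 4 := by positivity
      obtain ⟨c, hc⟩ := (denseRange_denseSeq (E n)).exists_dist_lt x hrk
      let i : Idx := (i1, i2, i3, k, c)
      have htri : ‖a - b‖ - 2 * τ' ≤ ‖denseSeq (F d) i1 - denseSeq (F d) i2‖ := by
        have e : a - b = -(denseSeq (F d) i1 - a) + (denseSeq (F d) i2 - b)
            + (denseSeq (F d) i1 - denseSeq (F d) i2) := by abel
        have := norm_add₃_le (a := -(denseSeq (F d) i1 - a)) (b := denseSeq (F d) i2 - b)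
          (c := denseSeq (F d) i1 - denseSeq (F d) i2)
        rw [← e, norm_neg] at this
        linarith
      have hne : denseSeq (F d) i1 ≠ denseSeq (F d) i2 := by
        intro h
        rw [h, sub_self, norm_zero] at htri
        linarith
      have hmem : x ∈ DD hT u δ i := by
        unfold DD
        rw [if_neg (show ¬ (pc hT n d i).a = (pc hT n d i).b from hne)]
        refine ⟨Cset_mono u _ _ _ _ hk.le hx, ?_⟩
        rw [mem_closedBall]
        exact hc.le
      have hle : (DD hT u δ i).indicator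
          (fun _ => κ * ‖(pc hT n d i).a - (pc hT n d i).b‖ₑ ^ q) x ≤ M := by
        rw [hM]
        exact le_iSup (fun i => (DD hT u δ i).indicator
          (fun _ => κ * ‖(pc hT n d i).a - (pc hT n d i).b‖ₑ ^ q) x) i
      rw [indicator_of_mem hmem] at hle
      refine le_trans ?_ hle
      gcongr
      show _ ≤ ‖denseSeq (F d) i1 - denseSeq (F d) i2‖ₑ
      rw [← ofReal_norm]
      apply ENNReal.ofReal_le_ofReal
      linarith
    have hlim : Tendsto (fun η : ℝ => κ * ENNReal.ofReal (‖a - b‖ - η) ^ q) (𝓝[>] 0)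
        (𝓝 (κ * ENNReal.ofReal (‖a - b‖ - 0) ^ q)) := by
      apply ENNReal.Tendsto.const_mul _ (Or.inr hκ)
      apply Tendsto.ennrpow_const
      apply (ENNReal.continuous_ofReal.tendsto _).comp
      apply Tendsto.mono_left _ nhdsWithin_le_nhds
      exact (continuous_const.sub continuous_id).tendsto 0
    rw [sub_zero] at hlim
    rw [← ofReal_norm]
    apply le_of_tendsto hlim
    filter_upwards [self_mem_nhdsWithin] with η hη
    exact step η hη
  -- pass to the supremum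
  rcases eq_or_ne κ 0 with h0 | h0
  · rw [h0, zero_mul]; exact bot_le
  · have : jumpSize u x ≤ (M / κ) ^ (1 / q) := by
      unfold jumpSize
      refine iSup_le fun a => iSup_le fun b => iSup_le fun ν => iSup_le fun hj => ?_
      have h1 := main a b ν hj
      have h2 : ‖a - b‖ₑ ^ q ≤ M / κ := by
        rw [ENNReal.le_div_iff_mul_le (Or.inl h0) (Or.inl hκ), mul_comm]; exact h1
      calc ‖a - b‖ₑ = (‖a - b‖ₑ ^ q) ^ (1 / q) := by
            rw [← ENNReal.rpow_mul, mul_one_div_cancel hq0'.ne', ENNReal.rpow_one]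
        _ ≤ _ := ENNReal.rpow_le_rpow h2 (by positivity)
    calc κ * jumpSize u x ^ q ≤ κ * ((M / κ) ^ (1 / q)) ^ q := by gcongr
      _ = κ * (M / κ) := by
          rw [← ENNReal.rpow_mul, one_div_mul_cancel hq0'.ne', ENNReal.rpow_one]
      _ ≤ M := ENNReal.mul_div_le

/-- the constant from the Hausdorff measure of graphs -/
noncomputable def cL (n : ℕ) (L : ℝ) : ℝ≥0∞ := ENNReal.ofReal (1 / Real.sqrt (1 - L ^ 2)) ^ n

/-- one choice of parameters -/
lemma param_ineq (hT : StmT) (hH : StmH) (hM : StmM) (hJ : StmJ) (hS : StmS)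
    {u : E n → F d} (hum : StronglyMeasurable u) {q : ℝ} (hq : 1 ≤ q) {δ L θ : ℝ}
    (hδ : 0 < δ) (hL : 0 < L) (hL1 : L < 1) (hs : Small n δ L) (hθ : 0 < θ) (hθ1 : θ < 1)
    (hδθ : Cq n q * ENNReal.ofReal δ * sigma n ≤ ENNReal.ofReal θ * kappa n) :
    ∫⁻ x, kappa n * jumpSize u x ^ q ∂(Hn n) ≤ cL n L * (Lam q u / ENNReal.ofReal (1 - θ)) := by
  obtain ⟨-, -, -, hκ⟩ := hS n 1 1 one_pos le_rfl
  have hq0 : 0 ≤ q := by linarith
  have hua := hum.aestronglyMeasurable (μ := volume)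
  refine (lintegral_mono fun x => jump_le_sup hJ hT hq hδ hκ x).trans ?_
  apply hM n Idx inferInstance (DD hT u δ) (fun i => kappa n * ‖(pc hT n d i).a - (pc hT n d i).b‖ₑ ^ q)
    _ (Hn n) (fun i => DD_compact hT hua δ i)
    (fun i => DD_finite hH hT hua hδ.le hL hL1 hs i)
    (fun i => ENNReal.mul_ne_top hκ (ENNReal.rpow_ne_top_of_nonneg hq0 enorm_ne_top))
  intro s K hK hKD hdis
  have hne : ∀ i ∈ s, (pc hT n d i).a ≠ (pc hT n d i).b ∨ K i = ∅ := by
    intro i hi
    by_cases h : (pc hT n d i).a = (pc hT n d i).b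
    · right
      have := hKD i hi
      unfold DD at this
      rw [if_pos h] at this
      exact subset_empty_iff.mp this
    · left; exact h
  have hKC : ∀ i ∈ s, K i ⊆ Cset u (pc hT n d i).a (pc hT n d i).b (pc hT n d i).ν (rho i)
      (δ * ‖(pc hT n d i).a - (pc hT n d i).b‖) := by
    intro i hi
    rcases hne i hi with h | h
    · have := hKD i hi
      unfold DD at this
      rw [if_neg h] at this
      exact fun x hx => (this hx).1
    · rw [h]; exact empty_subset _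
  have key := fin_ineq hS hum hq hδ.le s (pc hT n d) K rho (fun i _ => rho_pos i) hK hne hKC hdis
  set S := ∑ i ∈ s, volume ((pc hT n d i).P '' K i) * ‖(pc hT n d i).a - (pc hT n d i).b‖ₑ ^ q with hSd
  have hSt : S ≠ ⊤ := by
    rw [hSd]
    apply (ENNReal.sum_lt_top.mpr _).ne
    intro i hi
    apply ENNReal.mul_lt_top
    · exact ((hK i hi).image (pc hT n d i).P.continuous_of_finiteDimensional).measure_lt_top
    · exact ENNReal.rpow_lt_top_of_nonneg (by linarith) enorm_ne_top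
  have hSk : S * kappa n ≠ ⊤ := ENNReal.mul_ne_top hSt hκ
  have h1 : S * kappa n ≤ Lam q u / ENNReal.ofReal (1 - θ) := by
    rw [ENNReal.le_div_iff_mul_le (Or.inl (by simp [hθ1])) (Or.inl ENNReal.ofReal_ne_top)]
    have h2 : S * kappa n ≤ Lam q u + S * kappa n * ENNReal.ofReal θ := by
      refine key.trans (add_le_add le_rfl ?_)
      calc S * (Cq n q * ENNReal.ofReal δ * sigma n) ≤ S * (ENNReal.ofReal θ * kappa n) := by gcongr
        _ = _ := by ring
    have h3 : S * kappa n * ENNReal.ofReal (1 - θ) + S * kappa n * ENNReal.ofReal θ = S * kappa n := by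
      rw [← mul_add, ← ENNReal.ofReal_add (by linarith) hθ.le]
      simp
    have h4 : S * kappa n * ENNReal.ofReal θ ≠ ⊤ := ENNReal.mul_ne_top hSk ENNReal.ofReal_ne_top
    have h5 : S * kappa n * ENNReal.ofReal (1 - θ) + S * kappa n * ENNReal.ofReal θ
        ≤ Lam q u + S * kappa n * ENNReal.ofReal θ := by rw [h3]; exact h2
    exact (ENNReal.add_le_add_iff_right h4).mp h5
  calc ∑ i ∈ s, kappa n * ‖(pc hT n d i).a - (pc hT n d i).b‖ₑ ^ q * Hn n (K i)
      ≤ ∑ i ∈ s, kappa n * ‖(pc hT n d i).a - (pc hT n d i).b‖ₑ ^ q *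
          (cL n L * volume ((pc hT n d i).P '' K i)) := by
        apply Finset.sum_le_sum
        intro i hi
        gcongr
        exact Hn_mono_le hH hT hua hδ.le hL hL1 hs i (hKD i hi)
    _ = cL n L * (S * kappa n) := by
        rw [hSd, Finset.sum_mul, Finset.mul_sum]
        apply Finset.sum_congr rfl
        intro i _; ring
    _ ≤ _ := by gcongr

lemma tendsto_cL (n : ℕ) : Tendsto (fun L : ℝ => cL n L) (𝓝[>] 0) (𝓝 1) := by
  have h : Tendsto (fun L : ℝ => ENNReal.ofReal (1 / Real.sqrt (1 - L ^ 2)) ^ n) (𝓝 0)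
      (𝓝 (ENNReal.ofReal (1 / Real.sqrt (1 - 0 ^ 2)) ^ n)) := by
    apply ENNReal.Tendsto.pow
    apply (ENNReal.continuous_ofReal.tendsto _).comp
    apply Tendsto.div tendsto_const_nhds
    · exact ((Real.continuous_sqrt.comp (continuous_const.sub (continuous_pow 2))).tendsto 0)
    · simp
  have e : ENNReal.ofReal (1 / Real.sqrt (1 - 0 ^ 2)) ^ n = 1 := by simp
  rw [e] at h
  exact h.mono_left nhdsWithin_le_nhds

/-- the lower bound for the logarithmic average of `Phi` -/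
theorem jump_le (hT : StmT) (hH : StmH) (hM : StmM) (hJ : StmJ) (hS : StmS)
    {u : E n → F d} (hum : StronglyMeasurable u) {q : ℝ} (hq : 1 ≤ q) :
    kappa n * ∫⁻ x, jumpSize u x ^ q ∂(Hn n) ≤ Lam q u := by
  obtain ⟨-, -, hσ, hκ⟩ := hS n 1 1 one_pos le_rfl
  rcases eq_or_ne (kappa n) 0 with hκ0 | hκ0
  · rw [hκ0, zero_mul]; exact bot_le
  rw [← lintegral_const_mul' _ _ hκ]
  have key : ∀ θ ∈ Ioo (0 : ℝ) 1, ∫⁻ x, kappa n * jumpSize u x ^ q ∂(Hn n) ≤
      cL n θ * (Lam q u / ENNReal.ofReal (1 - θ)) := by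
    rintro θ ⟨hθ, hθ1⟩
    have h1 : Tendsto (fun δ : ℝ => ENNReal.ofReal (2 * 4 ^ (n + 1) * δ)) (𝓝[>] 0) (𝓝 0) := by
      have : Tendsto (fun δ : ℝ => ENNReal.ofReal (2 * 4 ^ (n + 1) * δ)) (𝓝 0)
          (𝓝 (ENNReal.ofReal (2 * 4 ^ (n + 1) * 0))) :=
        (ENNReal.continuous_ofReal.comp (continuous_const.mul continuous_id)).tendsto 0
      rw [mul_zero, ENNReal.ofReal_zero] at this
      exact this.mono_left nhdsWithin_le_nhds
    have h2 : Tendsto (fun δ : ℝ => Cq n q * ENNReal.ofReal δ * sigma n) (𝓝[>] 0) (𝓝 0) := by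
      have h : Tendsto (fun δ : ℝ => ENNReal.ofReal δ) (𝓝 0) (𝓝 (ENNReal.ofReal 0)) :=
        ENNReal.continuous_ofReal.tendsto 0
      have h' := ENNReal.Tendsto.mul_const (ENNReal.Tendsto.const_mul h (Or.inr (Cq_top n q)))
        (Or.inr hσ : Cq n q * ENNReal.ofReal 0 ≠ 0 ∨ sigma n ≠ ⊤)
      rw [ENNReal.ofReal_zero, mul_zero, zero_mul] at h'
      exact h'.mono_left nhdsWithin_le_nhds
    have p1 : 0 < ENNReal.ofReal (θ ^ (n + 1)) * VN n :=
      ENNReal.mul_pos (by simp only [ne_eq, ENNReal.ofReal_eq_zero, not_le]; positivity) (VN_pos n)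
    have p2 : 0 < ENNReal.ofReal θ * kappa n :=
      ENNReal.mul_pos (by simp only [ne_eq, ENNReal.ofReal_eq_zero, not_le]; positivity) hκ0
    obtain ⟨δ, hδ⟩ := ((h1.eventually_lt_const p1).and
      ((h2.eventually_lt_const p2).and self_mem_nhdsWithin)).exists
    exact param_ineq hT hH hM hJ hS hum hq hδ.2.2 hθ hθ1 hδ.1 hθ hθ1 hδ.2.1.le
  have hlim : Tendsto (fun θ : ℝ => cL n θ * (Lam q u / ENNReal.ofReal (1 - θ))) (𝓝[>] 0)
      (𝓝 (1 * (Lam q u / 1))) := by
    apply ENNReal.Tendsto.mul (tendsto_cL n) (Or.inl one_ne_zero) _ (Or.inr ENNReal.one_ne_top)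
    apply ENNReal.Tendsto.const_div _ (Or.inl ENNReal.one_ne_top)
    have : Tendsto (fun θ : ℝ => ENNReal.ofReal (1 - θ)) (𝓝 0) (𝓝 (ENNReal.ofReal (1 - 0))) :=
      (ENNReal.continuous_ofReal.comp (continuous_const.sub continuous_id)).tendsto 0
    rw [sub_zero, ENNReal.ofReal_one] at this
    exact this.mono_left nhdsWithin_le_nhds
  rw [one_mul, div_one] at hlim
  apply ge_of_tendsto hlim
  filter_upwards [Ioo_mem_nhdsGT (one_pos : (0 : ℝ) < 1)] with θ hθ
  exact key θ hθ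

end R257.BJ
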