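import Pool.Agent.KS6_63.GJ.L.Defs

open MeasureTheory Filter Set Metric Topology
open scoped ENNReal NNReal InnerProductSpace

namespace R257.BJ

variable {n d : ℕ}

lemma halfBall_open (x ν : E n) (r : ℝ) : IsOpen (halfBall x ν r) := by
  have h1 : IsOpen {y : E n | ‖y - x‖ < r} := isOpen_lt (by fun_prop) continuous_const
  have h2 : IsOpen {y : E n | 0 < ⟪ν, y - x⟫_ℝ} := isOpen_lt continuous_const (by fun_prop)
  exact h1.inter h2

lemma Cset_swap (u : E n → F d) (a b : F d) (ν : E n) (ρ δ : ℝ) :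
    Cset u b a (-ν) ρ δ = Cset u a b ν ρ δ := by
  ext x
  simp only [Cset, mem_ofPred_eq, neg_neg]
  constructor
  · intro h r h1 h2; exact ⟨(h r h1 h2).2, (h r h1 h2).1⟩
  · intro h r h1 h2; exact ⟨(h r h1 h2).2, (h r h1 h2).1⟩

lemma Cset_mono (u : E n → F d) (a b : F d) (ν : E n) {ρ ρ' : ℝ} (δ : ℝ) (h : ρ' ≤ ρ) :
    Cset u a b ν ρ δ ⊆ Cset u a b ν ρ' δ :=
  fun _ hx r h1 h2 => hx r h1 (h2.trans h)

lemma lsc_half {u : E n → F d} (hu : AEStronglyMeasurable u volume) (a : F d) (ν : E n) (r : ℝ)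
    (c : ℝ≥0∞) : IsClosed {x : E n | ∫⁻ y in halfBall x ν r, ‖u y - a‖ₑ ≤ c} := by
  apply IsSeqClosed.isClosed
  intro xs x hxs hx
  simp only [mem_ofPred_eq] at hxs ⊢
  have hm : ∀ z : E n, MeasurableSet (halfBall z ν r) := fun z => (halfBall_open z ν r).measurableSet
  have h1 : ∫⁻ y in halfBall x ν r, ‖u y - a‖ₑ
      = ∫⁻ y, (halfBall x ν r).indicator (fun y => ‖u y - a‖ₑ) y := by
    rw [lintegral_indicator (hm x)]
  rw [h1]
  have h2 : ∀ y, (halfBall x ν r).indicator (fun y => ‖u y - a‖ₑ) y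
      ≤ liminf (fun k => (halfBall (xs k) ν r).indicator (fun y => ‖u y - a‖ₑ) y) atTop := by
    intro y
    by_cases hy : y ∈ halfBall x ν r
    · rw [indicator_of_mem hy]
      have hev : ∀ᶠ k in atTop, y ∈ halfBall (xs k) ν r := by
        have c1 : Tendsto (fun k => ‖y - xs k‖) atTop (𝓝 ‖y - x‖) :=
          (tendsto_const_nhds.sub hx).norm
        have c2 : Tendsto (fun k => ⟪ν, y - xs k⟫_ℝ) atTop (𝓝 ⟪ν, y - x⟫_ℝ) :=
          tendsto_const_nhds.inner (tendsto_const_nhds.sub hx)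
        filter_upwards [c1.eventually_lt_const hy.1, c2.eventually_const_lt hy.2] with k e1 e2
        exact ⟨e1, e2⟩
      apply le_liminf_of_le (by isBoundedDefault)
      filter_upwards [hev] with k hk
      rw [indicator_of_mem hk]
    · rw [indicator_of_notMem hy]; exact bot_le
  have hmeas : ∀ k, AEMeasurable (fun y => (halfBall (xs k) ν r).indicator (fun y => ‖u y - a‖ₑ) y)
      volume := by
    intro k
    apply AEMeasurable.indicator _ (hm _)
    exact (hu.sub aestronglyMeasurable_const).enorm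
  calc ∫⁻ y, (halfBall x ν r).indicator (fun y => ‖u y - a‖ₑ) y
      ≤ ∫⁻ y, liminf (fun k => (halfBall (xs k) ν r).indicator (fun y => ‖u y - a‖ₑ) y) atTop :=
        lintegral_mono h2
    _ ≤ liminf (fun k => ∫⁻ y, (halfBall (xs k) ν r).indicator (fun y => ‖u y - a‖ₑ) y) atTop :=
        lintegral_liminf_le' hmeas
    _ ≤ c := by
        apply liminf_le_of_le (by isBoundedDefault)
        intro b hb
        obtain ⟨k, hk⟩ := hb.exists
        refine hk.trans ?_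
        rw [lintegral_indicator (hm _)]
        exact hxs k

lemma Cset_closed {u : E n → F d} (hu : AEStronglyMeasurable u volume) (a b : F d) (ν : E n)
    (ρ δ : ℝ) : IsClosed (Cset u a b ν ρ δ) := by
  have : Cset u a b ν ρ δ = ⋂ (r : ℝ) (_ : 0 < r) (_ : r ≤ ρ),
      ({x | ∫⁻ y in halfBall x ν r, ‖u y - a‖ₑ ≤ ENNReal.ofReal (δ * r ^ (n + 1))} ∩
       {x | ∫⁻ y in halfBall x (-ν) r, ‖u y - b‖ₑ ≤ ENNReal.ofReal (δ * r ^ (n + 1))}) := by
    ext x; simp only [Cset, mem_ofPred_eq, mem_iInter, mem_inter_iff]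
  rw [this]
  exact isClosed_iInter fun r => isClosed_iInter fun _ => isClosed_iInter fun _ =>
    (lsc_half hu a ν r _).inter (lsc_half hu b (-ν) r _)

/-- volume of the unit ball of `ℝ^N`. -/
noncomputable def VN (n : ℕ) : ℝ≥0∞ := volume (ball (0 : E n) 1)

lemma VN_pos (n : ℕ) : VN n ≠ 0 := (measure_ball_pos _ _ one_pos).ne'
lemma VN_top (n : ℕ) : VN n ≠ ⊤ := measure_ball_lt_top.ne

lemma vol_ball (x : E n) {r : ℝ} (hr : 0 ≤ r) :
    volume (ball x r) = ENNReal.ofReal (r ^ (n + 1)) * VN n := by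
  rw [Measure.addHaar_ball volume x hr]
  simp [VN]

/-- one-sided graph property -/
lemma graph_aux {u : E n → F d} {a b : F d} (hab : a ≠ b) {ν : E n} (hν : ‖ν‖ = 1) {ρ δ L : ℝ}
    (hL : 0 < L) (hL1 : L ≤ 1) (hδ : 0 ≤ δ)
    (hu : AEStronglyMeasurable u volume)
    (hsmall : ENNReal.ofReal (2 * 4 ^ (n + 1) * δ) < ENNReal.ofReal (L ^ (n + 1)) * VN n)
    {x x' : E n} (hx : x ∈ Cset u a b ν ρ (δ * ‖a - b‖)) (hx' : x' ∈ Cset u a b ν ρ (δ * ‖a - b‖))
    (hd : 2 * ‖x' - x‖ ≤ ρ) : ⟪ν, x' - x⟫_ℝ ≤ L * ‖x' - x‖ := by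
  by_contra hcon
  push Not at hcon
  set t := ‖x' - x‖ with ht
  have hs : 0 < ‖a - b‖ := norm_pos_iff.mpr (sub_ne_zero.mpr hab)
  have htpos : 0 < t := by
    rcases (norm_nonneg (x' - x)).lt_or_eq with h | h
    · exact h
    · exfalso
      have h0 : x' - x = 0 := norm_eq_zero.mp h.symm
      rw [← ht] at h
      rw [h0, inner_zero_right, ← h] at hcon
      simp at hcon
  have hνν : ⟪ν, ν⟫_ℝ = 1 := by rw [real_inner_self_eq_norm_sq, hν]; norm_num
  set m := x' - (L * t / 2) • ν with hm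
  have hball : ball m (L * t / 2) ⊆ halfBall x ν (2 * t) ∩ halfBall x' (-ν) (2 * t) := by
    intro z hz
    rw [mem_ball, dist_eq_norm] at hz
    have hz1 : z - x' = (z - m) - (L * t / 2) • ν := by rw [hm]; abel
    have hinn : |⟪ν, z - m⟫_ℝ| ≤ ‖z - m‖ := by
      have := abs_real_inner_le_norm ν (z - m)
      rwa [hν, one_mul] at this
    have e1 : ⟪ν, z - x'⟫_ℝ = ⟪ν, z - m⟫_ℝ - L * t / 2 := by
      rw [hz1, inner_sub_right, inner_smul_right, hνν, mul_one]
    have e2 : ‖z - x'‖ ≤ ‖z - m‖ + L * t / 2 := by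
      rw [hz1]
      refine (norm_sub_le _ _).trans ?_
      rw [norm_smul, hν, mul_one, Real.norm_of_nonneg (by positivity)]
    have e3 : z - x = (z - x') + (x' - x) := by abel
    have e4 : ⟪ν, z - x⟫_ℝ = ⟪ν, z - x'⟫_ℝ + ⟪ν, x' - x⟫_ℝ := by rw [e3, inner_add_right]
    have e5 : ‖z - x‖ ≤ ‖z - x'‖ + t := by rw [e3]; exact norm_add_le _ _
    have hLt : L * t ≤ t := by nlinarith
    have hb := abs_le.mp hinn
    refine ⟨⟨?_, ?_⟩, ⟨?_, ?_⟩⟩
    · linarith
    · rw [e4, e1]; linarith [hb.1]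
    · linarith
    · rw [inner_neg_left, e1]; linarith [hb.2]
  have hr : 0 < 2 * t := by linarith
  have A := (hx (2 * t) hr hd).1
  have B := (hx' (2 * t) hr hd).2
  have key : ENNReal.ofReal ‖a - b‖ * volume (ball m (L * t / 2)) ≤
      ENNReal.ofReal (δ * ‖a - b‖ * (2 * t) ^ (n + 1)) +
      ENNReal.ofReal (δ * ‖a - b‖ * (2 * t) ^ (n + 1)) := by
    calc ENNReal.ofReal ‖a - b‖ * volume (ball m (L * t / 2))
        = ∫⁻ _ in ball m (L * t / 2), ENNReal.ofReal ‖a - b‖ := by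
          rw [setLIntegral_const]
      _ ≤ ∫⁻ y in ball m (L * t / 2), (‖u y - a‖ₑ + ‖u y - b‖ₑ) := by
          apply lintegral_mono
          intro y
          have : ENNReal.ofReal ‖a - b‖ = ‖a - b‖ₑ := ofReal_norm _
          simp only [this]
          have h2 : a - b = -(u y - a) + (u y - b) := by abel
          rw [h2]
          refine (enorm_add_le _ _).trans ?_
          rw [enorm_neg]
      _ = (∫⁻ y in ball m (L * t / 2), ‖u y - a‖ₑ) + ∫⁻ y in ball m (L * t / 2), ‖u y - b‖ₑ := by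
          apply lintegral_add_left'
          exact ((hu.sub aestronglyMeasurable_const).enorm).restrict
      _ ≤ (∫⁻ y in halfBall x ν (2 * t), ‖u y - a‖ₑ) +
            ∫⁻ y in halfBall x' (-ν) (2 * t), ‖u y - b‖ₑ := by
          gcongr
          · exact fun z hz => (hball hz).1
          · exact fun z hz => (hball hz).2
      _ ≤ _ := add_le_add A B
  rw [vol_ball _ (by positivity), ← ENNReal.ofReal_add (by positivity) (by positivity)] at key
  have e6 : δ * ‖a - b‖ * (2 * t) ^ (n + 1) + δ * ‖a - b‖ * (2 * t) ^ (n + 1)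
      = (‖a - b‖ * (t / 2) ^ (n + 1)) * (2 * 4 ^ (n + 1) * δ) := by
    have : (2 * t) ^ (n + 1) = 4 ^ (n + 1) * (t / 2) ^ (n + 1) := by rw [← mul_pow]; ring
    rw [this]; ring
  have e7 : (L * t / 2) ^ (n + 1) = (t / 2) ^ (n + 1) * L ^ (n + 1) := by rw [← mul_pow]; ring
  rw [e6, e7, ENNReal.ofReal_mul (by positivity), ENNReal.ofReal_mul (by positivity)] at key
  have e8 : ENNReal.ofReal ‖a - b‖ * (ENNReal.ofReal ((t / 2) ^ (n + 1)) * ENNReal.ofReal (L ^ (n + 1)) * VN n)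
      = ENNReal.ofReal (‖a - b‖ * (t / 2) ^ (n + 1)) * (ENNReal.ofReal (L ^ (n + 1)) * VN n) := by
    rw [ENNReal.ofReal_mul (norm_nonneg _)]; ring
  rw [e8] at key
  have hne : ENNReal.ofReal (‖a - b‖ * (t / 2) ^ (n + 1)) ≠ 0 := by
    simp only [ne_eq, ENNReal.ofReal_eq_zero, not_le]; positivity
  rw [ENNReal.mul_le_mul_iff_right hne ENNReal.ofReal_ne_top] at key
  exact absurd key (not_le.mpr hsmall)

lemma graph_prop {u : E n → F d} {a b : F d} (hab : a ≠ b) {ν : E n} (hν : ‖ν‖ = 1) {ρ δ L : ℝ}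
    (hL : 0 < L) (hL1 : L ≤ 1) (hδ : 0 ≤ δ)
    (hu : AEStronglyMeasurable u volume)
    (hsmall : ENNReal.ofReal (2 * 4 ^ (n + 1) * δ) < ENNReal.ofReal (L ^ (n + 1)) * VN n)
    {x x' : E n} (hx : x ∈ Cset u a b ν ρ (δ * ‖a - b‖)) (hx' : x' ∈ Cset u a b ν ρ (δ * ‖a - b‖))
    (hd : 2 * ‖x' - x‖ ≤ ρ) : |⟪ν, x' - x⟫_ℝ| ≤ L * ‖x' - x‖ := by
  rw [abs_le]
  constructor
  · have := graph_aux hab hν hL hL1 hδ hu hsmall hx' hx (by rwa [norm_sub_rev])
    rw [norm_sub_rev] at this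
    have e : ⟪ν, x - x'⟫_ℝ = - ⟪ν, x' - x⟫_ℝ := by
      rw [← inner_neg_right, neg_sub]
    rw [e] at this
    linarith
  · exact graph_aux hab hν hL hL1 hδ hu hsmall hx hx' hd

end R257.BJ
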