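import Pool.Agent.KS6_63.GJ.L.Jump
import Pool.Agent.KS6_63.GJ.L.PartB

/-!
# Log-rescaled Gagliardo energy of mollifications and the jump set

For every `1 < q < ∞`, every `u ∈ B^{1/q}_{q,∞}(ℝ^N, ℝ^d)` and every integrable `η` (in particular
for every `η ∈ W^{1,1}(ℝ^N)`),
`liminf_{ε → 0+} |ln ε|⁻¹ [η_ε * u]^q_{W^{1/q,q}} ≥ |∫ η|^q κ_N ∫_{J_u} |u^+ - u^-|^q dH^{N-1}`.

Idea. Jensen's inequality is not enough, as `η` may change sign; instead one compares, for fixed `h`,
the difference quotients of `η_ε * u` and of `u`. This reduces the claim to a lower bound for the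
logarithmic average of `Φ(h) = ∫ |u(x+h) - u(x)|^q dx` over `ε ≤ |h| ≤ 1`. The jump set is covered by
countably many compact pieces of Lipschitz graphs with small constant, on which the one-sided averages
of `u` are uniformly close to constants `a`, `b`, and the lower bound is proved on finitely many
disjoint pieces.
-/

set_option autoImplicit false

open MeasureTheory Filter Set Metric Topology
open scoped ENNReal NNReal InnerProductSpace

namespace R257.BJ


variable {n d : ℕ}

lemma Phi_congr {q : ℝ} {u v : E n → F d} (huv : u =ᵐ[volume] v) (h : E n) :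
    Phi q u h = Phi q v h := by
  unfold Phi
  apply lintegral_congr_ae
  have h1 : ∀ᵐ x ∂(volume : Measure (E n)), u (x + h) = v (x + h) :=
    (measurePreserving_add_right (volume : Measure (E n)) h).quasiMeasurePreserving.ae huv
  filter_upwards [huv, h1] with x hx hx'
  simp only [hx, hx']

lemma Lam_congr {q : ℝ} {u v : E n → F d} (huv : u =ᵐ[volume] v) : Lam q u = Lam q v := by
  unfold Lam
  simp only [Phi_congr huv]

lemma IsJump_congr {u v : E n → F d} (huv : u =ᵐ[volume] v) {x : E n} {a b : F d} {ν : E n} :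
    IsJump u x a b ν ↔ IsJump v x a b ν := by
  have h : ∀ (s : Set (E n)) (c : F d), ∫⁻ y in s, ‖u y - c‖ₑ = ∫⁻ y in s, ‖v y - c‖ₑ := by
    intro s c
    apply lintegral_congr_ae
    filter_upwards [ae_restrict_of_ae huv] with y hy
    rw [hy]
  unfold IsJump
  simp only [h]

lemma jumpSize_congr {u v : E n → F d} (huv : u =ᵐ[volume] v) (x : E n) :
    jumpSize u x = jumpSize v x := by
  unfold jumpSize
  simp only [IsJump_congr huv]

/-- **Lower bound for the log-rescaled Gagliardo energy of mollifications.** For all `N = n + 1 ≥ 1`,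
all `d`, all `1 < q < ∞`, all `u ∈ B^{1/q}_{q,∞}(ℝ^N, ℝ^d)` and all integrable `η : ℝ^N → ℝ`,
`liminf_{ε → 0+} |ln ε|⁻¹ [u_ε]^q_{W^{1/q,q}} ≥ |∫ η|^q κ_N ∫_{J_u} |u^+ - u^-|^q dH^{N-1}`. -/
theorem besov_case : ∀ (n d : ℕ) (q : ℝ), 1 < q → ∀ u : E n → F d, MemBesov q u →
    ∀ η : E n → ℝ, Integrable η volume →
    ‖∫ z, η z‖ₑ ^ q * (kappa n * ∫⁻ x, jumpSize u x ^ q ∂(Hn n)) ≤
      liminf (fun ε : ℝ => gag q (moll η ε u) / ENNReal.ofReal |Real.log ε|) (𝓝[>] 0) := by
  intro n d q hq u hB η hη
  obtain ⟨hu, C, hC⟩ := hB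
  have hC' : ∀ h : E n, Phi q u h ≤ ENNReal.ofReal (max C 0) * ‖h‖ₑ := by
    intro h
    rcases eq_or_ne h 0 with rfl | h0
    · have : Phi q u (0 : E n) = 0 := by
        unfold Phi
        simp [ENNReal.zero_rpow_of_pos (show (0 : ℝ) < q by linarith)]
      rw [this]; exact bot_le
    · have h1 := hC h h0
      rw [ENNReal.div_le_iff (by simpa using h0) enorm_ne_top] at h1
      refine h1.trans ?_
      gcongr
      exact le_max_left _ _
  have hB := stmB stmS n d q hq u hu (max C 0) (le_max_right _ _) hC' η hη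
  refine le_trans ?_ hB
  gcongr
  set u' := hu.1.mk u with hu'
  have hae : u =ᵐ[volume] u' := hu.1.ae_eq_mk
  have hum : StronglyMeasurable u' := hu.1.stronglyMeasurable_mk
  have key := jump_le stmT stmH stmM stmJ stmS hum hq.le
  rw [← Lam_congr hae] at key
  simp only [jumpSize_congr hae]
  exact key

end R257.BJ
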