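import Pool.Agent.KS6_63.GJ.L.Local2

open MeasureTheory Filter Set Metric Topology
open scoped ENNReal NNReal InnerProductSpace

namespace R257.BJ

variable {n d : ℕ}

/-- data attached to one piece -/
structure Piece (n d : ℕ) where
  a : F d
  b : F d
  ν : E n
  hν : ‖ν‖ = 1
  P : E n →ₗ[ℝ] EuclideanSpace ℝ (Fin n)
  hP1 : ∀ x : E n, ‖x‖ ^ 2 = ⟪ν, x⟫_ℝ ^ 2 + ‖P x‖ ^ 2
  hP2 : MeasurePreserving (fun x : E n => (⟪ν, x⟫_ℝ, P x)) volume
      ((volume : Measure ℝ).prod (volume : Measure (EuclideanSpace ℝ (Fin n))))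

lemma exists_r0 {ι : Type} (s : Finset ι) (K : ι → Set (E n)) (hK : ∀ i ∈ s, IsCompact (K i))
    (hd : ∀ i ∈ s, ∀ j ∈ s, i ≠ j → Disjoint (K i) (K j)) (ρ : ι → ℝ) (hρ : ∀ i ∈ s, 0 < ρ i) :
    ∃ r0 : ℝ, 0 < r0 ∧ r0 ≤ 1 ∧ (∀ i ∈ s, 3 * r0 ≤ ρ i) ∧
      ∀ i ∈ s, ∀ j ∈ s, i ≠ j → Disjoint (thickening (2 * r0) (K i)) (thickening (2 * r0) (K j)) := by
  have h1 : ∀ᶠ r in 𝓝[>] (0 : ℝ), ∀ i ∈ s, 3 * r ≤ ρ i := by
    rw [Filter.eventually_all_finset]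
    intro i hi
    have : Tendsto (fun r : ℝ => 3 * r) (𝓝[>] 0) (𝓝 0) := by
      have : Tendsto (fun r : ℝ => 3 * r) (𝓝 0) (𝓝 (3 * 0)) := (continuous_const.mul continuous_id).tendsto 0
      rw [mul_zero] at this
      exact this.mono_left nhdsWithin_le_nhds
    filter_upwards [this.eventually_lt_const (hρ i hi)] with r hr using hr.le
  have h2 : ∀ᶠ r in 𝓝[>] (0 : ℝ), ∀ i ∈ s, ∀ j ∈ s, i ≠ j →
      Disjoint (thickening (2 * r) (K i)) (thickening (2 * r) (K j)) := by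
    rw [Filter.eventually_all_finset]
    intro i hi
    rw [Filter.eventually_all_finset]
    intro j hj
    by_cases hij : i = j
    · filter_upwards with r h; exact absurd hij h
    · obtain ⟨δ, hδ, hdis⟩ := (hd i hi j hj hij).exists_thickenings (hK i hi) (hK j hj).isClosed
      have : Ioo (0 : ℝ) (δ / 2) ∈ 𝓝[>] (0 : ℝ) := Ioo_mem_nhdsGT (by linarith)
      filter_upwards [this] with r hr _
      exact hdis.mono (thickening_mono (by linarith [hr.2]) _) (thickening_mono (by linarith [hr.2]) _)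
  have h3 : Ioo (0 : ℝ) 1 ∈ 𝓝[>] (0 : ℝ) := Ioo_mem_nhdsGT one_pos
  obtain ⟨r, hr1, hr2, hr3⟩ := (h1.and (h2.and h3)).exists
  exact ⟨r, hr3.1, hr3.2.le, hr1, hr2⟩

/-- sum over finitely many pieces of the local inequality -/
lemma sum_ineq {u : E n → F d} (hum : StronglyMeasurable u) {q : ℝ} (hq : 1 ≤ q) {δ : ℝ} (hδ : 0 ≤ δ)
    {ι : Type} (s : Finset ι) (p : ι → Piece n d) (K : ι → Set (E n)) (ρ : ι → ℝ)
    (hK : ∀ i ∈ s, IsCompact (K i)) (hne : ∀ i ∈ s, (p i).a ≠ (p i).b ∨ K i = ∅)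
    (hKC : ∀ i ∈ s, K i ⊆ Cset u (p i).a (p i).b (p i).ν (ρ i) (δ * ‖(p i).a - (p i).b‖))
    {r0 : ℝ} (hr3 : ∀ i ∈ s, 3 * r0 ≤ ρ i)
    (hdis : ∀ i ∈ s, ∀ j ∈ s, i ≠ j → Disjoint (thickening (2 * r0) (K i)) (thickening (2 * r0) (K j)))
    {h : E n} (hh : 0 < ‖h‖) (hr : ‖h‖ ≤ r0) :
    ∑ i ∈ s, volume ((p i).P '' K i) * ‖(p i).a - (p i).b‖ₑ ^ q * ‖⟪(p i).ν, h⟫_ℝ‖ₑ ≤
      Phi q u h + (∑ i ∈ s, volume ((p i).P '' K i) * ‖(p i).a - (p i).b‖ₑ ^ q) *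
        (Cq n q * ENNReal.ofReal δ * ‖h‖ₑ) := by
  have h1 : ∀ i ∈ s, volume ((p i).P '' K i) * ‖(p i).a - (p i).b‖ₑ ^ q * ‖⟪(p i).ν, h⟫_ℝ‖ₑ ≤
      (∫⁻ x in thickening (2 * ‖h‖) (K i), ‖u (x + h) - u x‖ₑ ^ q) +
      volume ((p i).P '' K i) * ‖(p i).a - (p i).b‖ₑ ^ q * (Cq n q * ENNReal.ofReal δ * ‖h‖ₑ) := by
    intro i hi
    rcases hne i hi with hab | hemp
    · exact local_ineq hum hq hab (p i).hν (p i).hP1 (p i).hP2 hδ (hK i hi) (hKC i hi) hh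
        (by linarith [hr3 i hi])
    · rw [hemp]; simp
  refine (Finset.sum_le_sum h1).trans ?_
  rw [Finset.sum_add_distrib, Finset.sum_mul]
  gcongr
  rw [← lintegral_biUnion_finset]
  · exact setLIntegral_le_lintegral _ _
  · intro i hi j hj hij
    exact (hdis i hi j hj hij).mono (thickening_mono (by linarith) _) (thickening_mono (by linarith) _)
  · intro i _; exact isOpen_thickening.measurableSet

/-- integrated over an annulus -/
lemma ann_ineq (hS : StmS) {u : E n → F d} (hum : StronglyMeasurable u) {q : ℝ} (hq : 1 ≤ q) {δ : ℝ} (hδ : 0 ≤ δ)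
    {ι : Type} (s : Finset ι) (p : ι → Piece n d) (K : ι → Set (E n)) (ρ : ι → ℝ)
    (hK : ∀ i ∈ s, IsCompact (K i)) (hne : ∀ i ∈ s, (p i).a ≠ (p i).b ∨ K i = ∅)
    (hKC : ∀ i ∈ s, K i ⊆ Cset u (p i).a (p i).b (p i).ν (ρ i) (δ * ‖(p i).a - (p i).b‖))
    {r0 : ℝ} (hr01 : r0 ≤ 1) (hr3 : ∀ i ∈ s, 3 * r0 ≤ ρ i)
    (hdis : ∀ i ∈ s, ∀ j ∈ s, i ≠ j → Disjoint (thickening (2 * r0) (K i)) (thickening (2 * r0) (K j)))
    {ε : ℝ} (hε : 0 < ε) (hεr : ε ≤ r0) :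
    (∑ i ∈ s, volume ((p i).P '' K i) * ‖(p i).a - (p i).b‖ₑ ^ q) * kappa n *
        ENNReal.ofReal (Real.log (r0 / ε)) ≤
      (∫⁻ h in ann n ε 1, Phi q u h / ‖h‖ₑ ^ (n + 2)) +
      (∑ i ∈ s, volume ((p i).P '' K i) * ‖(p i).a - (p i).b‖ₑ ^ q) *
        (Cq n q * ENNReal.ofReal δ * (sigma n * ENNReal.ofReal (Real.log (r0 / ε)))) := by
  obtain ⟨hS1, hS2, -, -⟩ := hS n ε r0 hε hεr
  set S := ∑ i ∈ s, volume ((p i).P '' K i) * ‖(p i).a - (p i).b‖ₑ ^ q with hSdef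
  have hannm : MeasurableSet (ann n ε r0) :=
    (measurableSet_le measurable_const measurable_norm).inter
      (measurableSet_le measurable_norm measurable_const)
  have hm1 : ∀ i, Measurable (fun h : E n => ‖⟪(p i).ν, h⟫_ℝ‖ₑ / ‖h‖ₑ ^ (n + 2)) := by
    intro i
    have : Measurable (fun h : E n => ⟪(p i).ν, h⟫_ℝ) := by fun_prop
    exact this.enorm.div (measurable_enorm.pow_const _)
  have hm2 : Measurable (fun h : E n => S * (Cq n q * ENNReal.ofReal δ) * (‖h‖ₑ / ‖h‖ₑ ^ (n + 2))) :=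
    (measurable_enorm.div (measurable_enorm.pow_const _)).const_mul _
  have hpt : ∀ h ∈ ann n ε r0,
      ∑ i ∈ s, volume ((p i).P '' K i) * ‖(p i).a - (p i).b‖ₑ ^ q *
        (‖⟪(p i).ν, h⟫_ℝ‖ₑ / ‖h‖ₑ ^ (n + 2)) ≤
      Phi q u h / ‖h‖ₑ ^ (n + 2) + S * (Cq n q * ENNReal.ofReal δ) * (‖h‖ₑ / ‖h‖ₑ ^ (n + 2)) := by
    intro h hh
    have hhp : 0 < ‖h‖ := lt_of_lt_of_le hε hh.1
    have key := sum_ineq hum hq hδ s p K ρ hK hne hKC hr3 hdis hhp hh.2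
    have e1 : ∑ i ∈ s, volume ((p i).P '' K i) * ‖(p i).a - (p i).b‖ₑ ^ q *
        (‖⟪(p i).ν, h⟫_ℝ‖ₑ / ‖h‖ₑ ^ (n + 2)) =
        (∑ i ∈ s, volume ((p i).P '' K i) * ‖(p i).a - (p i).b‖ₑ ^ q * ‖⟪(p i).ν, h⟫_ℝ‖ₑ) /
          ‖h‖ₑ ^ (n + 2) := by
      simp only [ENNReal.div_eq_inv_mul, Finset.mul_sum]
      apply Finset.sum_congr rfl
      intro i _; ring
    rw [e1]
    refine (ENNReal.div_le_div_right key _).trans ?_
    rw [ENNReal.add_div]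
    gcongr
    simp only [ENNReal.div_eq_inv_mul]
    apply le_of_eq; ring
  have hm3 : Measurable (fun h : E n => ‖h‖ₑ / ‖h‖ₑ ^ (n + 2)) :=
    measurable_enorm.div (measurable_enorm.pow_const _)
  have hint := setLIntegral_mono' (μ := volume) hannm hpt
  rw [lintegral_add_right _ hm2, lintegral_const_mul _ hm3, hS2] at hint
  have hL : ∫⁻ h in ann n ε r0, ∑ i ∈ s, volume ((p i).P '' K i) * ‖(p i).a - (p i).b‖ₑ ^ q *
        (‖⟪(p i).ν, h⟫_ℝ‖ₑ / ‖h‖ₑ ^ (n + 2)) = S * (kappa n * ENNReal.ofReal (Real.log (r0 / ε))) := by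
    rw [lintegral_finset_sum s (fun i _ => (hm1 i).const_mul _), hSdef, Finset.sum_mul]
    apply Finset.sum_congr rfl
    intro i _
    rw [lintegral_const_mul _ (hm1 i), hS1 _ (p i).hν]
  rw [hL] at hint
  calc S * kappa n * ENNReal.ofReal (Real.log (r0 / ε))
      = S * (kappa n * ENNReal.ofReal (Real.log (r0 / ε))) := by ring
    _ ≤ _ := hint
    _ ≤ (∫⁻ h in ann n ε 1, Phi q u h / ‖h‖ₑ ^ (n + 2)) +
        S * (Cq n q * ENNReal.ofReal δ) * (sigma n * ENNReal.ofReal (Real.log (r0 / ε))) := by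
        gcongr
        intro h hh; exact ⟨hh.1, hh.2.trans hr01⟩
    _ = _ := by ring

/-- the logarithmic average -/
noncomputable def Lam (q : ℝ) (u : E n → F d) : ℝ≥0∞ :=
  liminf (fun ε : ℝ => (∫⁻ h in ann n ε 1, Phi q u h / ‖h‖ₑ ^ (n + 2)) /
      ENNReal.ofReal |Real.log ε|) (𝓝[>] 0)

lemma tendsto_log_ratio {r0 : ℝ} (hr : 0 < r0) :
    Tendsto (fun ε : ℝ => ENNReal.ofReal (Real.log (r0 / ε)) / ENNReal.ofReal |Real.log ε|)
      (𝓝[>] 0) (𝓝 1) := by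
  have h1 : Tendsto (fun ε : ℝ => 1 + Real.log r0 * (|Real.log ε|)⁻¹) (𝓝[>] 0) (𝓝 (1 + Real.log r0 * 0)) := by
    apply Tendsto.add tendsto_const_nhds
    apply Tendsto.mul tendsto_const_nhds
    apply Tendsto.inv_tendsto_atTop
    exact (tendsto_abs_atBot_atTop).comp Real.tendsto_log_nhdsGT_zero
  rw [mul_zero, add_zero] at h1
  have h2 := (ENNReal.continuous_ofReal.tendsto 1).comp h1
  rw [ENNReal.ofReal_one] at h2
  refine h2.congr' ?_
  have h3 : Ioo (0 : ℝ) 1 ∈ 𝓝[>] (0 : ℝ) := Ioo_mem_nhdsGT one_pos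
  filter_upwards [h3] with ε hε
  have hl : Real.log ε < 0 := Real.log_neg hε.1 hε.2
  have ha : 0 < |Real.log ε| := abs_pos.mpr hl.ne
  simp only [Function.comp]
  rw [← ENNReal.ofReal_div_of_pos ha]
  congr 1
  rw [Real.log_div hr.ne' hε.1.ne', abs_of_neg hl]
  have : Real.log ε ≠ 0 := hl.ne
  field_simp
  ring

/-- finite families, after the logarithmic average -/
lemma fin_ineq (hS : StmS) {u : E n → F d} (hum : StronglyMeasurable u) {q : ℝ} (hq : 1 ≤ q) {δ : ℝ} (hδ : 0 ≤ δ)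
    {ι : Type} (s : Finset ι) (p : ι → Piece n d) (K : ι → Set (E n)) (ρ : ι → ℝ)
    (hρ : ∀ i ∈ s, 0 < ρ i)
    (hK : ∀ i ∈ s, IsCompact (K i)) (hne : ∀ i ∈ s, (p i).a ≠ (p i).b ∨ K i = ∅)
    (hKC : ∀ i ∈ s, K i ⊆ Cset u (p i).a (p i).b (p i).ν (ρ i) (δ * ‖(p i).a - (p i).b‖))
    (hd : ∀ i ∈ s, ∀ j ∈ s, i ≠ j → Disjoint (K i) (K j)) :
    (∑ i ∈ s, volume ((p i).P '' K i) * ‖(p i).a - (p i).b‖ₑ ^ q) * kappa n ≤ Lam q u +
      (∑ i ∈ s, volume ((p i).P '' K i) * ‖(p i).a - (p i).b‖ₑ ^ q) *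
        (Cq n q * ENNReal.ofReal δ * sigma n) := by
  obtain ⟨r0, hr0, hr01, hr3, hdis⟩ := exists_r0 s K hK hd ρ hρ
  set S := ∑ i ∈ s, volume ((p i).P '' K i) * ‖(p i).a - (p i).b‖ₑ ^ q with hSdef
  obtain ⟨-, -, hσ, hκ⟩ := hS n 1 1 one_pos le_rfl
  have hSt : S ≠ ⊤ := by
    rw [hSdef]
    apply (ENNReal.sum_lt_top.mpr _).ne
    intro i hi
    apply ENNReal.mul_lt_top
    · exact ((hK i hi).image (p i).P.continuous_of_finiteDimensional).measure_lt_top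
    · exact ENNReal.rpow_lt_top_of_nonneg (by linarith) enorm_ne_top
  set B := S * (Cq n q * ENNReal.ofReal δ * sigma n) with hB
  have hBt : B ≠ ⊤ := ENNReal.mul_ne_top hSt
    (ENNReal.mul_ne_top (ENNReal.mul_ne_top (Cq_top n q) ENNReal.ofReal_ne_top) hσ)
  rw [← tsub_le_iff_right]
  have hlim : Tendsto (fun ε : ℝ => S * kappa n * (ENNReal.ofReal (Real.log (r0 / ε)) /
      ENNReal.ofReal |Real.log ε|) - B) (𝓝[>] 0) (𝓝 (S * kappa n - B)) := by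
    have h1 : Tendsto (fun ε : ℝ => S * kappa n * (ENNReal.ofReal (Real.log (r0 / ε)) /
      ENNReal.ofReal |Real.log ε|)) (𝓝[>] 0) (𝓝 (S * kappa n * 1)) :=
      ENNReal.Tendsto.const_mul (tendsto_log_ratio hr0) (Or.inl one_ne_zero)
    rw [mul_one] at h1
    exact ENNReal.Tendsto.sub h1 tendsto_const_nhds (Or.inr hBt)
  unfold Lam
  rw [← hlim.liminf_eq]
  refine liminf_le_liminf ?_ (by isBoundedDefault) (by isBoundedDefault)
  · have h3 : Ioo (0 : ℝ) r0 ∈ 𝓝[>] (0 : ℝ) := Ioo_mem_nhdsGT hr0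
    filter_upwards [h3] with ε hε
    have hε1 : ε < 1 := by linarith [hε.2]
    have hl : Real.log ε < 0 := Real.log_neg hε.1 hε1
    have ha : 0 < |Real.log ε| := abs_pos.mpr hl.ne
    rw [tsub_le_iff_right]
    have key := ann_ineq hS hum hq hδ s p K ρ hK hne hKC hr01 hr3 hdis hε.1 hε.2.le
    have key2 := ENNReal.div_le_div_right key (ENNReal.ofReal |Real.log ε|)
    rw [ENNReal.add_div] at key2
    calc S * kappa n * (ENNReal.ofReal (Real.log (r0 / ε)) / ENNReal.ofReal |Real.log ε|)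
        = S * kappa n * ENNReal.ofReal (Real.log (r0 / ε)) / ENNReal.ofReal |Real.log ε| := by
          rw [mul_div_assoc]
      _ ≤ _ := key2
      _ ≤ _ := by
          gcongr
          have e : S * (Cq n q * ENNReal.ofReal δ * (sigma n * ENNReal.ofReal (Real.log (r0 / ε)))) =
            B * ENNReal.ofReal (Real.log (r0 / ε)) := by rw [hB]; ring
          rw [e, mul_div_assoc]
          apply mul_le_of_le_one_right'
          apply ENNReal.div_le_of_le_mul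
          rw [one_mul]
          apply ENNReal.ofReal_le_ofReal
          rw [Real.log_div hr0.ne' hε.1.ne', abs_of_neg hl]
          have := Real.log_nonpos hr0.le hr01
          linarith

end R257.BJ
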